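import Pool.Agent.H24.Lib.R_seed8.H617R3.AP.Wide
import Pool.Agent.H24.Lib.R_seed8.W346.RB.Primes

/-!
Supersaturation at the extremal number of progression-free sets.
-/

set_option autoImplicit false

open Finset

namespace Pool.Agent.R444.Supersat

open Pool.Agent.H617R3.AP

/-- The number of progressions `a, a + q, …, a + (k-1) q` in `A ∩ [1, N]` with difference
`q ≥ 1` divisible by `d`, `1 ≤ a, q ≤ N`. -/
noncomputable def apCount (k N d : ℕ) (A : Finset ℕ) : ℕ := by
  classical
  exact ((Icc 1 N ×ˢ Icc 1 N).filter (fun p => d ∣ p.2 ∧ ∀ i < k, p.1 + i * p.2 ∈ A)).card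

open Classical in
theorem apCount_eq (k N d : ℕ) (A : Finset ℕ) : apCount k N d A =
    ((Icc 1 N ×ˢ Icc 1 N).filter (fun p => d ∣ p.2 ∧ ∀ i < k, p.1 + i * p.2 ∈ A)).card := rfl

/-- Deleting one term of every progression with difference divisible by `d`. -/
theorem delete {k : ℕ} (hk : 2 ≤ k) {N d : ℕ} (hd : 1 ≤ d) {A : Finset ℕ} (hA : A ⊆ Icc 1 N) :
    A.card ≤ apCount k N d A + d * r k (N / d + 1) := by
  classical
  rw [apCount_eq]
  set P := (Icc 1 N ×ˢ Icc 1 N).filter (fun p => d ∣ p.2 ∧ ∀ i < k, p.1 + i * p.2 ∈ A) with hP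
  set D := P.image Prod.fst with hD
  have h1 : A.card ≤ P.card + (A \ D).card := by
    have h2 : A ⊆ D ∪ (A \ D) := by
      intro x hx
      by_cases h : x ∈ D
      · exact mem_union_left _ h
      · exact mem_union_right _ (mem_sdiff.mpr ⟨hx, h⟩)
    exact (card_le_card h2).trans ((card_union_le _ _).trans
      (Nat.add_le_add_right card_image_le _))
  have h3 : (A \ D).card ≤ d * r k (N / d + 1) := by
    have h4 : (A \ D).card = ∑ c ∈ range d, ((A \ D).filter (fun n => n % d = c)).card :=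
      card_eq_sum_card_fiberwise (fun n _ => by
        exact_mod_cast mem_range.mpr (Nat.mod_lt n (by omega)))
    rw [h4]
    calc ∑ c ∈ range d, ((A \ D).filter (fun n => n % d = c)).card
        ≤ ∑ c ∈ range d, r k (N / d + 1) := by
          apply sum_le_sum
          intro c _
          have hfree : APFree k ((A \ D).filter (fun n => n % d = c)) := by
            intro a q hq hall
            have ha0 := hall 0 (by omega)
            have ha1 := hall 1 (by omega)
            rw [zero_mul, add_zero] at ha0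
            rw [one_mul] at ha1
            rw [mem_filter, mem_sdiff] at ha0 ha1
            have hdq : d ∣ q := by
              have : a % d = (a + q) % d := by rw [ha0.2, ha1.2]
              have h5 : a ≡ a + q [MOD d] := this
              have h6 := (Nat.modEq_iff_dvd' (Nat.le_add_right a q)).mp h5
              simpa using h6
            apply ha0.1.2
            rw [hD, mem_image]
            refine ⟨(a, q), ?_, rfl⟩
            rw [hP, mem_filter, mem_product]
            have haN := mem_Icc.mp (hA ha0.1.1)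
            have haqN := mem_Icc.mp (hA ha1.1.1)
            refine ⟨⟨hA ha0.1.1, mem_Icc.mpr ⟨hq, by omega⟩⟩, hdq, fun i hi => ?_⟩
            have := hall i hi
            rw [mem_filter, mem_sdiff] at this
            exact this.1.1
          have h7 := card_class_le (by omega : 1 ≤ k) hfree hd c 0 N
          rw [Nat.sub_zero] at h7
          refine le_trans (le_of_eq ?_) h7
          congr 1
          ext n
          simp only [mem_filter, mem_sdiff]
          constructor
          · rintro ⟨⟨hn, hnD⟩, hc⟩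
            have := mem_Icc.mp (hA hn)
            exact ⟨⟨⟨hn, hnD⟩, hc⟩, by omega, by omega, hc⟩
          · rintro ⟨h8, _⟩
            exact h8
      _ = d * r k (N / d + 1) := by rw [sum_const, card_range, smul_eq_mul]
  omega

/-- Summing over distinct primes. -/
theorem sum_primes (k N D : ℕ) (hN : 1 ≤ N) (f : ℕ → ℕ) (hp : ∀ i < D, (f i).Prime)
    (hinj : ∀ i < D, ∀ j < D, i ≠ j → f i ≠ f j) (A : Finset ℕ) :
    ∑ i ∈ range D, apCount k N (f i) A ≤ apCount k N 1 A * Nat.log 2 N := by
  classical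
  have h1 : ∀ i, apCount k N (f i) A = ∑ p ∈ (Icc 1 N ×ˢ Icc 1 N).filter
      (fun p => 1 ∣ p.2 ∧ ∀ i < k, p.1 + i * p.2 ∈ A), if f i ∣ p.2 then 1 else 0 := by
    intro i
    rw [apCount_eq, ← sum_filter, sum_const, smul_eq_mul, mul_one, filter_filter]
    congr 1
    ext p
    simp only [mem_filter, one_dvd, true_and]
    constructor
    · rintro ⟨h1, h2, h3⟩
      exact ⟨h1, h3, h2⟩
    · rintro ⟨h1, h2, h3⟩
      exact ⟨h1, h3, h2⟩
  rw [sum_congr rfl (fun i _ => h1 i), sum_comm, apCount_eq, ← smul_eq_mul, ← sum_const]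
  apply sum_le_sum
  intro p hp2
  rw [mem_filter, mem_product, mem_Icc, mem_Icc] at hp2
  rw [← sum_filter, sum_const, smul_eq_mul, mul_one]
  -- the number of primes dividing `p.2` is at most `log₂ N`
  set I := (range D).filter (fun i => f i ∣ p.2) with hI
  have hprod : ∏ i ∈ I, f i ∣ p.2 := by
    apply Finset.prod_dvd_of_isRelPrime
    · intro i hi j hj hij
      have hi' := mem_range.mp (mem_filter.mp (mem_coe.mp hi)).1
      have hj' := mem_range.mp (mem_filter.mp (mem_coe.mp hj)).1
      exact Nat.coprime_iff_isRelPrime.mp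
        ((Nat.coprime_primes (hp i hi') (hp j hj')).mpr (hinj i hi' j hj' hij))
    · intro i hi
      exact (mem_filter.mp hi).2
  have h2 : 2 ^ I.card ≤ p.2 := by
    calc 2 ^ I.card = ∏ _i ∈ I, 2 := by rw [prod_const]
      _ ≤ ∏ i ∈ I, f i := prod_le_prod' fun i hi => (hp i (mem_range.mp (mem_filter.mp hi).1)).two_le
      _ ≤ p.2 := Nat.le_of_dvd (by omega) hprod
  calc I.card ≤ Nat.log 2 p.2 := Nat.le_log_of_pow_le (by norm_num) h2
    _ ≤ Nat.log 2 N := Nat.log_mono_right (by omega)

/-- The conditions for large `s = √(log N)`. -/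
theorem eventually_conds (c ε X₀ : ℝ) (hc : 0 < c) (hε : 0 < ε) :
    ∃ s₀ : ℝ, ∀ s : ℝ, s₀ ≤ s → 1 ≤ s ∧ X₀ + 1 ≤ Real.exp (c * s) ∧ 2 ≤ Real.exp (c * s) ∧
      1 + 10 * c * s + 30 * c / ε * s ^ 3 * Real.exp (c / 2 * s) ≤ Real.exp (c * s) ∧
      c * s + Real.log (8 / ε) ≤ s ^ 2 := by
  have e1 : ∀ᶠ s : ℝ in Filter.atTop, (1 : ℝ) ≤ s := Filter.eventually_ge_atTop 1
  have e2 : ∀ᶠ s : ℝ in Filter.atTop, (|X₀| + 3) / c ≤ s := Filter.eventually_ge_atTop _
  have e3 : ∀ᶠ s : ℝ in Filter.atTop, ‖s ^ 3‖ ≤ (1 / (3 * (30 * c / ε))) *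
      ‖Real.exp (c / 2 * s)‖ :=
    (isLittleO_pow_exp_pos_mul_atTop 3 (by positivity)).def (by positivity)
  have e4 : ∀ᶠ s : ℝ in Filter.atTop, ‖s ^ 1‖ ≤ (1 / (30 * c)) * ‖Real.exp (c * s)‖ :=
    (isLittleO_pow_exp_pos_mul_atTop 1 (by positivity)).def (by positivity)
  have e5 : ∀ᶠ s : ℝ in Filter.atTop, c + |Real.log (8 / ε)| ≤ s := Filter.eventually_ge_atTop _
  obtain ⟨s₀, h⟩ := (e1.and (e2.and (e3.and (e4.and e5)))).exists_forall_of_atTop
  refine ⟨s₀, fun s hs => ?_⟩
  obtain ⟨h1, h2, h3, h4, h5⟩ := h s hs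
  have hs0 : 0 < s := by linarith
  have hcs : |X₀| + 3 ≤ c * s := by
    rw [div_le_iff₀ hc] at h2; linarith
  have hX := le_abs_self X₀
  have hX0 := abs_nonneg X₀
  have hexp := Real.add_one_le_exp (c * s)
  refine ⟨h1, by linarith, by linarith, ?_, ?_⟩
  · rw [Real.norm_of_nonneg (by positivity), Real.norm_of_nonneg (Real.exp_pos _).le] at h3
    rw [pow_one, Real.norm_of_nonneg hs0.le, Real.norm_of_nonneg (Real.exp_pos _).le] at h4
    have h6 : 30 * c / ε * s ^ 3 * Real.exp (c / 2 * s) ≤ 1 / 3 * Real.exp (c * s) := by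
      calc 30 * c / ε * s ^ 3 * Real.exp (c / 2 * s)
          ≤ 30 * c / ε * (1 / (3 * (30 * c / ε)) * Real.exp (c / 2 * s)) *
            Real.exp (c / 2 * s) := by gcongr
        _ = 1 / 3 * (Real.exp (c / 2 * s) * Real.exp (c / 2 * s)) := by field_simp
        _ = 1 / 3 * Real.exp (c * s) := by rw [← Real.exp_add]; congr 2; ring
    have h7 : 10 * c * s ≤ 1 / 3 * Real.exp (c * s) := by
      calc 10 * c * s ≤ 10 * c * (1 / (30 * c) * Real.exp (c * s)) := by gcongr
        _ = 1 / 3 * Real.exp (c * s) := by field_simp; norm_num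
    linarith
  · have h8 := le_abs_self (Real.log (8 / ε))
    have h9 := abs_nonneg (Real.log (8 / ε))
    nlinarith

end Pool.Agent.R444.Supersat
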