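import Pool.Agent.H24.Lib.seeded_b0a926ef.R444.Supersat

/-!
Supersaturation at the extremal number of progression-free sets: the theorem.
-/

set_option autoImplicit false

open Finset

namespace Pool.Agent.R444.Supersat

open Pool.Agent.H617R3.AP

open Classical in
theorem main {k : ℕ} (hk : 3 ≤ k) {ε : ℝ} (h0 : 0 < ε) (h1 : ε ≤ 1) :
    ∃ (c C : ℝ) (E : Set ℕ), 0 < c ∧
      (∀ x : ℕ, 1 ≤ x → ∑ N ∈ (Icc 1 x).filter (fun N => N ∈ E), (1 : ℝ) / N ≤
        ε * Real.log x + C) ∧
      ∀ N : ℕ, 1 ≤ N → N ∉ E → ∀ A : Finset ℕ, A ⊆ Icc 1 N → (1 + ε) * r k N ≤ A.card →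
        (∀ d : ℕ, 1 ≤ d → (d : ℝ) ≤ Real.exp (c * √(Real.log N)) →
          ε / 2 * r k N ≤ apCount k N d A) ∧
        r k N * Real.exp (c * √(Real.log N)) ≤ apCount k N 1 A := by
  obtain ⟨c, C, E, hc, hE, hR⟩ := part_three hk (ε := ε / 8) (by positivity) (by linarith)
  obtain ⟨X₀, hX₀⟩ := Pool.Agent.W346.RB.primes
  obtain ⟨s₀, hs₀⟩ := eventually_conds c ε X₀ hc h0
  obtain ⟨N₀, hN₀⟩ := exists_nat_gt (Real.exp (s₀ ^ 2))
  refine ⟨c / 2, C + N₀, E ∪ {N | N < N₀}, by positivity, fun x hx => ?_, fun N hN hNE A hA hcard => ?_⟩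
  · have h2 : ∑ N ∈ (Icc 1 x).filter (fun N => N ∈ E ∪ {N | N < N₀}), (1 : ℝ) / N ≤
        ∑ N ∈ (Icc 1 x).filter (fun N => N ∈ E), (1 : ℝ) / N +
        ∑ N ∈ (Icc 1 x).filter (fun N => N < N₀), (1 : ℝ) / N := by
      have h3 : (Icc 1 x).filter (fun N => N ∈ E ∪ {N | N < N₀}) =
          (Icc 1 x).filter (fun N => N ∈ E) ∪ (Icc 1 x).filter (fun N => N < N₀) := by
        ext n
        simp only [mem_filter, mem_union, Set.mem_union, Set.mem_ofPred_eq]
        tauto
      rw [h3, ← sum_union_inter]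
      have h4 : 0 ≤ ∑ N ∈ (Icc 1 x).filter (fun N => N ∈ E) ∩ (Icc 1 x).filter (fun N => N < N₀),
          (1 : ℝ) / N := sum_nonneg fun n _ => by positivity
      linarith
    have h5 : ∑ N ∈ (Icc 1 x).filter (fun N => N < N₀), (1 : ℝ) / N ≤ N₀ := by
      calc ∑ N ∈ (Icc 1 x).filter (fun N => N < N₀), (1 : ℝ) / N
          ≤ ∑ N ∈ (Icc 1 x).filter (fun N => N < N₀), (1 : ℝ) := by
            apply sum_le_sum
            intro n hn
            rw [mem_filter, mem_Icc] at hn
            have : (1 : ℝ) ≤ n := by exact_mod_cast hn.1.1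
            rw [div_le_one (by linarith)]
            exact this
        _ = (((Icc 1 x).filter (fun N => N < N₀)).card : ℝ) := by simp
        _ ≤ (((range N₀).card : ℕ) : ℝ) := by
            exact_mod_cast card_le_card fun n hn => mem_range.mpr (mem_filter.mp hn).2
        _ = N₀ := by simp
    have h6 := hE x hx
    have h7 : 0 ≤ Real.log x := Real.log_nonneg (by exact_mod_cast hx)
    have h8 : ε / 8 * Real.log x ≤ ε * Real.log x :=
      mul_le_mul_of_nonneg_right (by linarith) h7
    refine le_trans (le_of_eq ?_) (h2.trans (by linarith))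
    congr
  · rw [Set.mem_union, not_or] at hNE
    obtain ⟨hNE, hNN⟩ := hNE
    have hNN₀ : N₀ ≤ N := by simpa using hNN
    have hNR : (1 : ℝ) ≤ N := by exact_mod_cast hN
    have hNpos : (0 : ℝ) < N := by linarith
    obtain ⟨s, hs⟩ : ∃ s : ℝ, s = √(Real.log N) := ⟨_, rfl⟩
    have hlog0 : 0 ≤ Real.log N := Real.log_nonneg hNR
    have hs2 : s ^ 2 = Real.log N := by rw [hs, Real.sq_sqrt hlog0]
    have hss : s₀ ≤ s := by
      rw [hs]
      apply Real.le_sqrt_of_sq_le
      rw [Real.le_log_iff_exp_le hNpos]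
      have : (N₀ : ℝ) ≤ N := by exact_mod_cast hNN₀
      linarith
    obtain ⟨hs1, hX0, hX2, hbig, hsm⟩ := hs₀ s hss
    have hspos : 0 < s := by linarith
    have hr := r_pos hk hN
    obtain ⟨hR1, -⟩ := hR N hN hNE
    rw [← hs] at hR1
    -- part (1), in the larger window
    have key : ∀ d : ℕ, 1 ≤ d → (d : ℝ) ≤ Real.exp (c * s) → ε / 2 * r k N ≤ apCount k N d A := by
      intro d hd hdc
      have hdR : (1 : ℝ) ≤ d := by exact_mod_cast hd
      have hdpos : (0 : ℝ) < d := by linarith
      have hM1 : (N : ℝ) / d < ((N / d + 1 : ℕ) : ℝ) := by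
        push_cast
        rw [div_lt_iff₀ hdpos]
        have : N < (N / d + 1) * d := by
          have := Nat.div_add_mod N d
          have := Nat.mod_lt N (by omega : 0 < d)
          nlinarith
        exact_mod_cast this
      have hM2 : ((N / d + 1 : ℕ) : ℝ) ≤ (N : ℝ) / d + 1 := by
        push_cast
        have : ((N / d : ℕ) : ℝ) ≤ (N : ℝ) / d := Nat.cast_div_le
        linarith
      have hMlow : (N : ℝ) * Real.exp (-(c * s)) ≤ ((N / d + 1 : ℕ) : ℝ) := by
        rw [Real.exp_neg]
        calc (N : ℝ) * (Real.exp (c * s))⁻¹ ≤ N * (d : ℝ)⁻¹ := by gcongr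
          _ = N / d := by rw [div_eq_mul_inv]
          _ ≤ _ := hM1.le
      have hNd : (N : ℝ) / d ≤ N := div_le_self hNpos.le hdR
      have hMhigh : ((N / d + 1 : ℕ) : ℝ) ≤ N * Real.exp (c * s) := by
        calc ((N / d + 1 : ℕ) : ℝ) ≤ (N : ℝ) / d + 1 := hM2
          _ ≤ N * 2 := by linarith
          _ ≤ N * Real.exp (c * s) := by gcongr
      have h2 := hR1 (N / d + 1) hMlow hMhigh
      obtain ⟨M, hM⟩ : ∃ M : ℕ, M = N / d + 1 := ⟨_, rfl⟩
      rw [← hM] at h2 hM1 hM2
      have hMpos : (0 : ℝ) < M := by rw [hM]; positivity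
      have h3 : (r k M : ℝ) / r k N / ((M : ℝ) / N) ≤ 1 + ε / 8 := by
        have := (abs_le.mp h2).2
        linarith
      have h4 : (r k M : ℝ) ≤ (1 + ε / 8) * ((M : ℝ) / N) * r k N := by
        rw [div_le_iff₀ (by positivity), div_le_iff₀ hr] at h3
        exact h3
      have h5 : (d : ℝ) / N ≤ ε / 8 := by
        rw [div_le_iff₀ hNpos]
        have h6 : Real.exp (c * s) * (8 / ε) ≤ N := by
          have h7 : Real.exp (c * s + Real.log (8 / ε)) ≤ Real.exp (s ^ 2) :=
            Real.exp_le_exp.mpr hsm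
          rw [Real.exp_add, Real.exp_log (by positivity), hs2, Real.exp_log hNpos] at h7
          exact h7
        calc (d : ℝ) ≤ Real.exp (c * s) := hdc
          _ = ε / 8 * (Real.exp (c * s) * (8 / ε)) := by field_simp
          _ ≤ ε / 8 * N := by gcongr
      have h6 : (d : ℝ) * ((M : ℝ) / N) ≤ 1 + ε / 8 := by
        calc (d : ℝ) * ((M : ℝ) / N) ≤ d * (((N : ℝ) / d + 1) / N) := by gcongr
          _ = 1 + d / N := by field_simp
          _ ≤ 1 + ε / 8 := by linarith
      have h7 : (d : ℝ) * r k M ≤ (1 + ε / 2) * r k N := by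
        calc (d : ℝ) * r k M ≤ d * ((1 + ε / 8) * ((M : ℝ) / N) * r k N) := by gcongr
          _ = (1 + ε / 8) * (d * ((M : ℝ) / N)) * r k N := by ring
          _ ≤ (1 + ε / 8) * (1 + ε / 8) * r k N := by gcongr
          _ ≤ (1 + ε / 2) * r k N := by
              apply mul_le_mul_of_nonneg_right _ hr.le
              nlinarith
      have h8 : (A.card : ℝ) ≤ apCount k N d A + d * r k M := by
        have := delete (k := k) (by omega) (N := N) hd hA
        rw [← hM] at this
        exact_mod_cast this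
      linarith
    refine ⟨fun d hd hdc => ?_, ?_⟩
    · rw [← hs] at hdc
      apply key d hd
      refine hdc.trans (Real.exp_le_exp.mpr ?_)
      nlinarith
    · rw [← hs]
      obtain ⟨X, hX⟩ : ∃ X : ℕ, X = ⌊Real.exp (c * s)⌋₊ := ⟨_, rfl⟩
      have hXle : (X : ℝ) ≤ Real.exp (c * s) := by
        rw [hX]; exact Nat.floor_le (Real.exp_pos _).le
      have hXgt : Real.exp (c * s) - 1 < X := by
        rw [hX]; exact Nat.sub_one_lt_floor _
      have hXX₀ : X₀ ≤ X := by
        have : (X₀ : ℝ) < X := by linarith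
        exact_mod_cast this.le
      have hX1 : (1 : ℝ) < X ∨ (1 : ℝ) ≤ X := Or.inr (by
        have : (1 : ℝ) ≤ X := by
          have h9 : 1 ≤ X := by
            rw [hX]
            apply Nat.le_floor
            push_cast
            linarith
          exact_mod_cast h9
        exact this)
      have hX1' : (1 : ℝ) ≤ X := by
        rcases hX1 with h | h <;> linarith
      have hlogX : Real.log X ≤ c * s := by
        rw [Real.log_le_iff_le_exp (by linarith)]
        exact hXle
      -- `X ≥ 2`, as `exp (c s)` is large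
      have hX2' : 2 ≤ X := by
        rw [hX]
        apply Nat.le_floor
        push_cast
        exact hX2
      have hlogXpos : 0 < Real.log X := Real.log_pos (by exact_mod_cast hX2')
      obtain ⟨D, hD⟩ : ∃ D : ℕ, D = ⌊(X : ℝ) / (10 * Real.log X)⌋₊ := ⟨_, rfl⟩
      have hDle : (D : ℝ) ≤ X / (10 * Real.log X) := by
        rw [hD]; exact Nat.floor_le (by positivity)
      have hDgt : (X : ℝ) / (10 * Real.log X) - 1 < D := by
        rw [hD]; exact Nat.sub_one_lt_floor _
      have hcspos : 0 < c * s := by positivity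
      have hDbig : 3 / ε * s ^ 2 * Real.exp (c / 2 * s) ≤ D := by
        have h9 : (Real.exp (c * s) - 1) / (10 * (c * s)) ≤ (X : ℝ) / (10 * Real.log X) := by
          apply div_le_div₀ (by linarith) hXgt.le (by positivity)
          linarith
        have h10 : 3 / ε * s ^ 2 * Real.exp (c / 2 * s) ≤
            (Real.exp (c * s) - 1) / (10 * (c * s)) - 1 := by
          rw [le_sub_iff_add_le, le_div_iff₀ (by positivity)]
          calc (3 / ε * s ^ 2 * Real.exp (c / 2 * s) + 1) * (10 * (c * s))
              = (1 + 10 * c * s + 30 * c / ε * s ^ 3 * Real.exp (c / 2 * s)) - 1 := by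
                field_simp
                ring
            _ ≤ Real.exp (c * s) - 1 := by linarith
        linarith
      obtain ⟨f, hf, hinj⟩ := hX₀ X hXX₀ D hDle
      have hsum := sum_primes k N D hN f (fun i hi => (hf i hi).1) hinj A
      have hlow : (D : ℝ) * (ε / 2 * r k N) ≤ ((∑ i ∈ range D, apCount k N (f i) A : ℕ) : ℝ) := by
        push_cast
        rw [← card_range D, ← nsmul_eq_mul, ← sum_const, card_range]
        apply sum_le_sum
        intro i hi
        rw [mem_range] at hi
        apply key (f i) (hf i hi).1.one_lt.le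
        have : (f i : ℝ) ≤ X := by exact_mod_cast (hf i hi).2.2.2
        linarith
      have hupp : ((∑ i ∈ range D, apCount k N (f i) A : ℕ) : ℝ) ≤
          apCount k N 1 A * (3 / 2 * s ^ 2) := by
        calc ((∑ i ∈ range D, apCount k N (f i) A : ℕ) : ℝ)
            ≤ ((apCount k N 1 A * Nat.log 2 N : ℕ) : ℝ) := by exact_mod_cast hsum
          _ = apCount k N 1 A * ((Nat.log 2 N : ℕ) : ℝ) := by push_cast; ring
          _ ≤ apCount k N 1 A * (3 / 2 * s ^ 2) := by
              rw [hs2]
              apply mul_le_mul_of_nonneg_left (natlog_le hN)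
              positivity
      have hs2pos : 0 < 3 / 2 * s ^ 2 := by positivity
      have hfin : (r k N * Real.exp (c / 2 * s)) * (3 / 2 * s ^ 2) ≤
          apCount k N 1 A * (3 / 2 * s ^ 2) := by
        calc (r k N * Real.exp (c / 2 * s)) * (3 / 2 * s ^ 2)
            = (3 / ε * s ^ 2 * Real.exp (c / 2 * s)) * (ε / 2 * r k N) := by
              field_simp
          _ ≤ D * (ε / 2 * r k N) := by gcongr
          _ ≤ _ := hlow.trans hupp
      exact le_of_mul_le_mul_right hfin hs2pos

end Pool.Agent.R444.Supersat
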