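import Pool.Agent.H24.Lib.seeded_b0a926ef.R444.Supersat2

/-!
Weighted version: the extremal density is attained for every weight, by averaging over translates
of an extremal set of a longer interval.
-/

set_option autoImplicit false

open Finset

namespace Pool.Agent.R444.Supersat

open Pool.Agent.H617R3.AP

theorem exists_translate {k : ℕ} (hk : 1 ≤ k) (N M : ℕ) (hN : 1 ≤ N) (w : ℕ → ℝ)
    (hw : ∀ x, 0 ≤ w x) : ∃ A : Finset ℕ, A ⊆ Icc 1 N ∧ APFree k A ∧
      (r k M : ℝ) * ∑ x ∈ Icc 1 N, w x ≤ ((M : ℝ) + N) * ∑ x ∈ A, w x := by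
  classical
  obtain ⟨S, hS, hfree, hcard⟩ := exists_opt hk M
  let At : ℕ → Finset ℕ := fun t => (Icc 1 N).filter (fun x => N ≤ x + t ∧ x + t - N ∈ S)
  have hAt : ∀ t, At t = (Icc 1 N).filter (fun x => N ≤ x + t ∧ x + t - N ∈ S) := fun _ => rfl
  by_contra hcon
  have h1 : ∀ t ∈ range (M + N), ((M : ℝ) + N) * ∑ x ∈ At t, w x <
      (r k M : ℝ) * ∑ x ∈ Icc 1 N, w x := by
    intro t _
    by_contra h2
    rw [not_lt] at h2
    refine hcon ⟨At t, by rw [hAt]; exact filter_subset _ _, ?_, h2⟩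
    intro a d hd hall
    apply hfree (a + t - N) d hd
    intro i hi
    have h3 := hall i hi
    have h4 := hall 0 (by omega)
    rw [hAt, mem_filter] at h3 h4
    rw [zero_mul, add_zero] at h4
    have : a + t - N + i * d = a + i * d + t - N := by omega
    rw [this]
    exact h3.2.2
  have h2 := sum_lt_sum_of_nonempty (⟨0, mem_range.mpr (by omega)⟩ : (range (M + N)).Nonempty) h1
  rw [← mul_sum, sum_const, card_range, nsmul_eq_mul] at h2
  push_cast at h2
  have hpos : (0 : ℝ) < (M : ℝ) + N := by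
    have : (1 : ℝ) ≤ N := by exact_mod_cast hN
    positivity
  have h3 := lt_of_mul_lt_mul_left h2 hpos.le
  have h4 : (r k M : ℝ) * ∑ x ∈ Icc 1 N, w x ≤ ∑ t ∈ range (M + N), ∑ x ∈ At t, w x := by
    have h5 : ∑ t ∈ range (M + N), ∑ x ∈ At t, w x =
        ∑ x ∈ Icc 1 N, ∑ t ∈ range (M + N), if N ≤ x + t ∧ x + t - N ∈ S then w x else 0 := by
      rw [sum_comm]
      apply sum_congr rfl
      intro t _
      rw [hAt, sum_filter]
    rw [h5, mul_sum]
    apply sum_le_sum
    intro x hx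
    rw [mem_Icc] at hx
    rw [← sum_filter, sum_const, nsmul_eq_mul]
    apply mul_le_mul_of_nonneg_right _ (hw x)
    rw [← hcard]
    exact_mod_cast card_le_card_of_injOn (fun s => s + N - x) (fun s hs => by
      have hs' : s ∈ S := hs
      have h6 := mem_Icc.mp (hS hs')
      simp only [coe_filter, mem_range, Set.mem_ofPred_eq]
      refine ⟨by omega, by omega, ?_⟩
      have : x + (s + N - x) - N = s := by omega
      rw [this]
      exact hs') (fun s hs s' hs' h => by
      have h6 := mem_Icc.mp (hS (show s ∈ S from hs))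
      have h7 := mem_Icc.mp (hS (show s' ∈ S from hs'))
      simp only at h
      omega)
  linarith

open Classical in
theorem main2 {k : ℕ} (hk : 3 ≤ k) {ε : ℝ} (h0 : 0 < ε) (h1 : ε ≤ 1) :
    ∃ (C : ℝ) (E : Set ℕ),
      (∀ x : ℕ, 2 ≤ x → ∑ N ∈ (Icc 1 x).filter (fun N => N ∈ E), (1 : ℝ) / N ≤
        C * √(Real.log x)) ∧
      ∀ N : ℕ, 1 ≤ N → N ∉ E → ∀ w : ℕ → ℝ, (∀ x, 0 ≤ w x) →
        ∃ A : Finset ℕ, A ⊆ Icc 1 N ∧ APFree k A ∧
          (1 - ε) * ((r k N : ℝ) / N) * ∑ x ∈ Icc 1 N, w x ≤ ∑ x ∈ A, w x := by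
  obtain ⟨K, hK⟩ := exists_nat_gt (8 / ε)
  have hKpos : (0 : ℝ) < K := lt_trans (by positivity) hK
  have hK1 : (1 : ℝ) ≤ K := by
    have : 0 < K := by exact_mod_cast hKpos
    exact_mod_cast this
  obtain ⟨C, E, hE, hR⟩ := part_two hk (ε := ε / 8) (by positivity) (by linarith) (Λ := K) hK1
  refine ⟨C, E, hE, fun N hN hNE w hw => ?_⟩
  obtain ⟨hR1, -⟩ := hR N hN hNE
  have hNR : (1 : ℝ) ≤ N := by exact_mod_cast hN
  have hNpos : (0 : ℝ) < N := by linarith
  have h2 := hR1 (K * N) (by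
    push_cast
    have e1 : (N : ℝ) ≤ K * N := le_mul_of_one_le_left hNpos.le hK1
    have e2 : (K : ℝ) * N ≤ K * (K * N) := le_mul_of_one_le_left (by positivity) hK1
    linarith) (by push_cast; exact le_rfl)
  obtain ⟨A, hA, hfree, hle⟩ := exists_translate (k := k) (by omega) N (K * N) hN w hw
  refine ⟨A, hA, hfree, ?_⟩
  have hr := r_pos hk hN
  have h3 : (K : ℝ) - ε / 8 ≤ r k (K * N) / r k N := by
    have h4 := (abs_le.mp h2).1
    have h5 : ((K * N : ℕ) : ℝ) / N = K := by push_cast; field_simp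
    rw [h5] at h4
    linarith
  rw [le_div_iff₀ hr] at h3
  set W := ∑ x ∈ Icc 1 N, w x with hW
  have hW0 : 0 ≤ W := sum_nonneg fun x _ => hw x
  push_cast at hle
  have h6 : 0 < (K : ℝ) * N + N := by positivity
  have h7 : (1 - ε) * ((r k N : ℝ) / N) * W * (K * N + N) ≤ r k (K * N) * W := by
    have h8 : (1 - ε) * ((r k N : ℝ) / N) * W * (K * N + N) =
        ((1 - ε) * (K + 1)) * r k N * W := by
      field_simp
    rw [h8]
    apply mul_le_mul_of_nonneg_right _ hW0
    refine le_trans ?_ h3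
    apply mul_le_mul_of_nonneg_right _ hr.le
    have h9 : 8 ≤ ε * K := by
      have := (div_lt_iff₀ h0).mp hK
      linarith
    nlinarith
  have h10 : (1 - ε) * ((r k N : ℝ) / N) * W * (K * N + N) ≤ (∑ x ∈ A, w x) * (K * N + N) := by
    linarith
  exact le_of_mul_le_mul_right h10 h6

end Pool.Agent.R444.Supersat
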